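import Mathlib
import Pool.Agent.Helper852.EZ.Final

set_option autoImplicit false

namespace Pool.Agent.Results.MP_d44e55_gt.NoEquivariantHomeo

open Pool.Agent.Helper852.EZ
open UpperHalfPlane

/-- The group of the example is hyperbolic. -/
theorem hyp_GG : ∃ S : Set GG, HypGen S := by
  refine hyp_of_action (G := GG) (X := ℍ) (fun g x y => ?_) UpperHalfPlane.I ?_ ?_
    geod_point four_point
  · show dist (g.1 • x) (g.1 • y) = dist x y
    exact dist_smul g.1 x y
  · intro R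
    have h1 := Gam_finite R
    have h2 : Subtype.val '' {g : GG | dist (g • (UpperHalfPlane.I : ℍ)) UpperHalfPlane.I ≤ R} ⊆
        {g | g ∈ Gam ∧ dist (g • (UpperHalfPlane.I : ℍ)) UpperHalfPlane.I ≤ R} := by
      rintro _ ⟨g, hg, rfl⟩
      exact ⟨g.2, hg⟩
    exact Set.Finite.of_finite_image (h1.subset h2) Subtype.val_injective.injOn
  · obtain ⟨D, hD⟩ := Gam_cocompact
    refine ⟨D, fun z => ?_⟩
    obtain ⟨g, hg, h⟩ := hD z
    exact ⟨⟨g, hg⟩, h⟩

/-- There are a hyperbolic group `G` and an EZ-structure `(Y, Z)` on `G` such that no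
homeomorphism from `Z` to the Gromov boundary of `G` is `G`-equivariant; there is not even an
injective `G`-equivariant map. -/
theorem result :
    ∃ (G : Type) (_ : Group G), (∃ S : Set G, HypGen S) ∧
      ∃ (Y : Type) (_ : MetricSpace Y) (_ : MulAction G Y) (Z : Set Y),
        IsEZStructure G Y Z ∧
        ∀ S : Set G, HypGen S →
          (¬ ∃ φ : Z ≃ₜ Bdry S, ∀ (g : G) (z w : Z), g • (z : Y) = (w : Y) →
            φ w = Bdry.act g (φ z)) ∧
          (¬ ∃ φ : Z → Bdry S, Function.Injective φ ∧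
            ∀ (g : G) (z w : Z), g • (z : Y) = (w : Y) → φ w = Bdry.act g (φ z)) := by
  obtain ⟨T⟩ := exists_TData
  letI := T.act
  obtain ⟨h, y, h1, h2, h3⟩ := three_fixed T
  refine ⟨GG, inferInstance, hyp_GG, YY, inferInstance, T.act, {y : YY | ‖(y : ℂ)‖ = 1}, isEZ T, ?_⟩
  intro S hS
  have key : ¬ ∃ φ : {y : YY | ‖(y : ℂ)‖ = 1} → Bdry S, Function.Injective φ ∧
      ∀ (g : GG) (z w : {y : YY | ‖(y : ℂ)‖ = 1}), g • (z : YY) = (w : YY) →
        φ w = Bdry.act g (φ z) := by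
    rintro ⟨φ, hφ, heq⟩
    refine fixed_le_two S hS h h1 (fun i => φ ⟨y i, (h3 i).1⟩) (fun i => ?_) ?_
    · exact (heq h ⟨y i, (h3 i).1⟩ ⟨y i, (h3 i).1⟩ (h3 i).2).symm
    · intro i j hij
      have := hφ hij
      exact h2 (congrArg Subtype.val this)
  refine ⟨?_, key⟩
  rintro ⟨φ, hφ⟩
  exact key ⟨φ, φ.injective, hφ⟩

end Pool.Agent.Results.MP_d44e55_gt.NoEquivariantHomeo
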